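import Mathlib
import Pool.Agent.Helper3.BallsCount

/-!
# Lines tangent to four of `n` unit balls: the cubic lower bound `T(n) = Ω(n³)`
-/

set_option autoImplicit false

namespace Pool.Agent.Results.MP_11b705_co.CubicLowerBound

/-- Three-dimensional Euclidean space. -/
abbrev Space : Type := EuclideanSpace ℝ (Fin 3)

/-- `ℓ` is a line in space. -/
def IsLine (ℓ : AffineSubspace ℝ Space) : Prop :=
  (ℓ : Set Space).Nonempty ∧ Module.finrank ℝ ℓ.direction = 1

/-- For a finite set `S` of centres: the set of all lines that are tangent to exactly four of the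
unit balls with centres in `S` and miss all the others. (A line is tangent to the unit ball with
centre `c` if its distance from `c` is `1`, and misses it if the distance is larger than `1`.) -/
def tangentLines (S : Finset Space) : Set (AffineSubspace ℝ Space) :=
  {ℓ | IsLine ℓ ∧ ∃ s ⊆ S, s.card = 4 ∧ (∀ c ∈ s, Metric.infDist c (ℓ : Set Space) = 1) ∧
    ∀ c ∈ S, c ∉ s → 1 < Metric.infDist c (ℓ : Set Space)}

/-- `T(n) ≥ n³ / 216` for all `n ≥ 6`: there are `n` distinct unit balls in space for which the
number of lines tangent to exactly four of them and missing the others is finite and at least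
`n³ / 216`. -/
theorem result : ∀ n : ℕ, 6 ≤ n → ∃ S : Finset Space, S.card = n ∧
    (tangentLines S).Finite ∧ n ^ 3 ≤ 216 * (tangentLines S).ncard :=
  fun n hn => Helper3.Balls.main n hn

end Pool.Agent.Results.MP_11b705_co.CubicLowerBound
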